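import Mathlib

namespace Pool.Agent.Results.MP_709eaf_lc.NotIff

/-- `weave [u₁, …, uₙ₊₁] [a₁, …, aₙ]` is the word `u₁ a₁ u₂ a₂ ⋯ uₙ aₙ uₙ₊₁`. -/
def weave {A : Type} : List (List A) → List A → List A
  | u :: us, a :: w => u ++ a :: weave us w
  | us, _ => us.flatten

/-- The one-step relation `u ⊢_I v`. -/
def Step {A : Type} (I : Finset (List A)) (u v : List A) : Prop :=
  ∃ (us : List (List A)) (w : List A), w ∈ I ∧ us.length = w.length + 1 ∧
    u = us.flatten ∧ v = weave us w

/-- The quasi-order `⊢*_I`. -/
def Star {A : Type} (I : Finset (List A)) : List A → List A → Prop :=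
  Relation.ReflTransGen (Step I)

/-- The shuffle closure `L_I`. -/
def LI {A : Type} (I : Finset (List A)) : Language A := {u | Star I [] u}

/-- `⊢*_I` is a well quasi-order on `L_I`. -/
def WqoOnLI {A : Type} (I : Finset (List A)) : Prop :=
  ∀ x : ℕ → List A, (∀ n, x n ∈ LI I) → ∃ i j, i < j ∧ Star I (x i) (x j)

/-! ### Shuffles -/

inductive Shuffle {A : Type} : List A → List A → List A → Prop
  | nil : Shuffle [] [] []
  | left {u w v} (a : A) : Shuffle u w v → Shuffle (a :: u) w (a :: v)
  | right {u w v} (a : A) : Shuffle u w v → Shuffle u (a :: w) (a :: v)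

theorem Shuffle.weave {A : Type} {u w v : List A} (h : Shuffle u w v) :
    ∃ us : List (List A), us.length = w.length + 1 ∧ u = us.flatten ∧ v = NotIff.weave us w := by
  induction h with
  | nil => exact ⟨[[]], rfl, rfl, rfl⟩
  | @left u w v a _ ih =>
    obtain ⟨us, h1, h2, h3⟩ := ih
    cases us with
    | nil => simp at h1
    | cons x us =>
      refine ⟨(a :: x) :: us, by simpa using h1, by simp [h2], ?_⟩
      cases w with
      | nil => simp [NotIff.weave] at h3 ⊢; exact h3
      | cons c w => simp [NotIff.weave] at h3 ⊢; exact h3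
  | @right u w v a _ ih =>
    obtain ⟨us, h1, h2, h3⟩ := ih
    exact ⟨[] :: us, by simp [h1], by simp [h2], by simp [NotIff.weave, h3]⟩

theorem count_weave {A : Type} [DecidableEq A] (a : A) (w : List A) :
    ∀ us : List (List A), us.length = w.length + 1 →
      (weave us w).count a = us.flatten.count a + w.count a := by
  induction w with
  | nil =>
    intro us _
    cases us <;> simp [weave]
  | cons c w ih =>
    intro us h
    cases us with
    | nil => simp at h
    | cons u us =>
      have h' : us.length = w.length + 1 := by simpa using h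
      simp only [weave, List.count_append, List.count_cons, List.flatten_cons, ih us h']
      omega

theorem Shuffle.of_nil_right {A : Type} (u : List A) : Shuffle u [] u := by
  induction u with
  | nil => exact .nil
  | cons a u ih => exact .left a ih

theorem Shuffle.eq_of_nil {A : Type} {u v : List A} (h : Shuffle u [] v) : v = u := by
  induction u generalizing v with
  | nil => cases h; rfl
  | cons a u ih => cases h with | left _ h => rw [ih h]

theorem Shuffle.length {A : Type} {u w v : List A} (h : Shuffle u w v) :
    v.length = u.length + w.length := by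
  induction h with
  | nil => rfl
  | left a _ ih => simp [ih]; omega
  | right a _ ih => simp [ih]; omega

theorem Shuffle.count {A : Type} [DecidableEq A] {u w v : List A} (h : Shuffle u w v) (a : A) :
    v.count a = u.count a + w.count a := by
  induction h with
  | nil => rfl
  | left c _ ih => simp only [List.count_cons, ih]; omega
  | right c _ ih => simp only [List.count_cons, ih]; omega

theorem Shuffle.of_sublist {A : Type} {u v : List A} (h : u.Sublist v) : ∃ w, Shuffle w u v := by
  induction h with
  | slnil => exact ⟨[], .nil⟩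
  | cons a _ ih => obtain ⟨w, hw⟩ := ih; exact ⟨a :: w, .left a hw⟩
  | cons_cons a _ ih => obtain ⟨w, hw⟩ := ih; exact ⟨w, .right a hw⟩

theorem Shuffle.symm {A : Type} {u w v : List A} (h : Shuffle u w v) : Shuffle w u v := by
  induction h with
  | nil => exact .nil
  | left a _ ih => exact .right a ih
  | right a _ ih => exact .left a ih

theorem Shuffle.assoc {A : Type} {x w y : List A} (h : Shuffle x w y) :
    ∀ {w' t : List A}, Shuffle w' t w → ∃ y', Shuffle x w' y' ∧ Shuffle y' t y := by
  induction h with
  | nil =>
    intro w' t h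
    cases h
    exact ⟨[], .nil, .nil⟩
  | left a _ ih =>
    intro w' t h
    obtain ⟨y', h1, h2⟩ := ih h
    exact ⟨a :: y', .left a h1, .left a h2⟩
  | right a _ ih =>
    intro w' t h
    cases h with
    | left _ h =>
      obtain ⟨y', h1, h2⟩ := ih h
      exact ⟨a :: y', .right a h1, .left a h2⟩
    | right _ h =>
      obtain ⟨y', h1, h2⟩ := ih h
      exact ⟨y', h1, .right a h2⟩

/-! ### The set of all permutations of `abc` -/

/-- The six permutations of the word `abc` over the three letter alphabet. -/
def perms : Finset (List (Fin 3)) := ([0, 1, 2] : List (Fin 3)).permutations.toFinset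

theorem mem_perms (w : List (Fin 3)) : w ∈ perms ↔ w.Perm [0, 1, 2] := by
  simp [perms, List.mem_permutations]

theorem count_perms {w : List (Fin 3)} (h : w ∈ perms) (a : Fin 3) : w.count a = 1 := by
  rw [mem_perms] at h
  rw [h.count_eq]
  fin_cases a <;> rfl

def Bal (w : List (Fin 3)) : Prop := w.count 0 = w.count 1 ∧ w.count 1 = w.count 2

theorem bal_of_step {u v : List (Fin 3)} (h : Step perms u v) (hu : Bal u) : Bal v := by
  obtain ⟨us, w, hw, hl, rfl, rfl⟩ := h
  unfold Bal at *
  simp only [count_weave _ w us hl, count_perms hw]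
  omega

theorem bal_of_mem {u : List (Fin 3)} (h : u ∈ LI perms) : Bal u := by
  have h' : Relation.ReflTransGen (Step perms) [] u := h
  induction h' with
  | refl => exact ⟨rfl, rfl⟩
  | tail _ h2 ih => exact bal_of_step h2 (ih ‹_›)

theorem star_of_shuffle (n : ℕ) : ∀ {x w y : List (Fin 3)}, w.length = n → Bal w →
    Shuffle x w y → Star perms x y := by
  induction n using Nat.strong_induction_on with
  | _ n ih =>
    intro x w y hn hb hs
    by_cases h0 : w = []
    · subst h0
      rw [hs.eq_of_nil]
      exact Relation.ReflTransGen.refl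
    · -- every letter occurs in w
      have hpos : ∀ a : Fin 3, a ∈ w := by
        obtain ⟨c, hc⟩ := List.exists_mem_of_ne_nil w h0
        have hc' : 0 < w.count c := List.count_pos_iff.2 hc
        have hall : ∀ a : Fin 3, w.count a = w.count 0 := by
          intro a
          fin_cases a
          · rfl
          · exact hb.1.symm
          · exact (hb.1.trans hb.2).symm
        intro a
        rw [← List.count_pos_iff, hall a, ← hall c]
        exact hc'
      have hd : w.dedup.Perm [0, 1, 2] := by
        apply List.perm_of_nodup_nodup_toFinset_eq (List.nodup_dedup w) (by decide)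
        ext a
        simp [hpos a]
        fin_cases a <;> simp
      obtain ⟨w', hw'⟩ := Shuffle.of_sublist (List.dedup_sublist w)
      obtain ⟨y', h1, h2⟩ := hs.assoc hw'
      have hmem : w.dedup ∈ perms := (mem_perms _).2 hd
      have hlen := hw'.length
      have hlen3 : w.dedup.length = 3 := hd.length_eq
      have hb' : Bal w' := by
        have e0 := hw'.count 0
        have e1 := hw'.count 1
        have e2 := hw'.count 2
        rw [count_perms hmem] at e0 e1 e2
        unfold Bal at *
        omega
      have hst : Step perms y' y := by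
        obtain ⟨us, g1, g2, g3⟩ := h2.weave
        exact ⟨us, w.dedup, hmem, g1, g2, g3⟩
      exact Relation.ReflTransGen.tail (ih w'.length (by omega) rfl hb' h1) hst

theorem mem_iff (u : List (Fin 3)) : u ∈ LI perms ↔ Bal u := by
  refine ⟨bal_of_mem, fun h => ?_⟩
  have hs : Shuffle [] u u := (Shuffle.of_nil_right u).symm
  exact star_of_shuffle u.length rfl h hs

theorem wqo : WqoOnLI perms := by
  intro x hx
  have hfin : (Set.univ : Set (Fin 3)).PartiallyWellOrderedOn (· = ·) :=
    Set.finite_univ.partiallyWellOrderedOn
  have hH := hfin.partiallyWellOrderedOn_sublistForall₂ (· = ·)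
  rw [Set.partiallyWellOrderedOn_iff_exists_lt] at hH
  obtain ⟨i, j, hij, h⟩ := hH x (fun n y _ => Set.mem_univ y)
  refine ⟨i, j, hij, ?_⟩
  rw [List.sublistForall₂_iff] at h
  obtain ⟨l, h1, h2⟩ := h
  rw [List.forall₂_eq_eq_eq] at h1
  subst h1
  obtain ⟨w, hw⟩ := Shuffle.of_sublist h2
  have hs := hw.symm
  refine star_of_shuffle w.length rfl ?_ hs
  have hi := bal_of_mem (hx i)
  have hj := bal_of_mem (hx j)
  have e0 := hs.count 0
  have e1 := hs.count 1
  have e2 := hs.count 2
  unfold Bal at *
  omega

/-! ### Context-free grammars: a large-factor lemma -/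

section CFG
variable {T : Type} (g : ContextFreeGrammar T)

/-- `Yld g s w`: the sentential form `s` yields the terminal word `w`. -/
inductive Yld : List (Symbol T g.NT) → List T → Prop
  | nil : Yld [] []
  | term (a : T) {s w} : Yld s w → Yld (.terminal a :: s) (a :: w)
  | nont (r : ContextFreeRule T g.NT) {s w1 w2} : r ∈ g.rules → Yld r.output w1 → Yld s w2 →
      Yld (.nonterminal r.input :: s) (w1 ++ w2)

variable {g}

theorem Yld.append {s1 s2 : List (Symbol T g.NT)} {w1 w2 : List T} (h1 : Yld g s1 w1)
    (h2 : Yld g s2 w2) : Yld g (s1 ++ s2) (w1 ++ w2) := by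
  induction h1 with
  | nil => exact h2
  | term a _ ih => exact .term a ih
  | nont r hr hy _ _ ih =>
    rw [List.append_assoc]
    exact .nont r hr hy ih

theorem Yld.split {s1 s2 : List (Symbol T g.NT)} : ∀ {w : List T}, Yld g (s1 ++ s2) w →
    ∃ w1 w2, w = w1 ++ w2 ∧ Yld g s1 w1 ∧ Yld g s2 w2 := by
  induction s1 with
  | nil => intro w h; exact ⟨[], w, rfl, .nil, h⟩
  | cons c s1 ih =>
    intro w h
    rw [List.cons_append] at h
    cases h with
    | term a h =>
      obtain ⟨w1, w2, rfl, h1, h2⟩ := ih h
      exact ⟨a :: w1, w2, rfl, .term a h1, h2⟩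
    | nont r hr hy h =>
      rename_i v1 v2
      obtain ⟨w1, w2, rfl, h1, h2⟩ := ih h
      exact ⟨v1 ++ w1, w2, by simp, .nont r hr hy h1, h2⟩

theorem Yld.terminal (w : List T) : Yld g (w.map .terminal) w := by
  induction w with
  | nil => exact .nil
  | cons a w ih => exact .term a ih

theorem Yld.of_derives {s : List (Symbol T g.NT)} {w : List T}
    (h : g.Derives s (w.map .terminal)) : Yld g s w := by
  induction h using Relation.ReflTransGen.head_induction_on with
  | refl => exact Yld.terminal w
  | head h1 _ ih =>
    obtain ⟨r, hr, hrw⟩ := h1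
    obtain ⟨p, q, rfl, rfl⟩ := hrw.exists_parts
    obtain ⟨w12, w3, rfl, h12, h3⟩ := Yld.split ih
    obtain ⟨w1, w2, rfl, h1, h2⟩ := Yld.split h12
    refine (h1.append ?_).append h3
    have := Yld.nont r hr h2 .nil
    rwa [List.append_nil] at this

theorem Yld.derives {s : List (Symbol T g.NT)} {w : List T} (h : Yld g s w) :
    g.Derives s (w.map .terminal) := by
  induction h with
  | nil => exact Relation.ReflTransGen.refl
  | term a _ ih =>
    have := ih.append_left [Symbol.terminal a]
    simpa using this
  | @nont r s w1 w2 hr _ _ ih1 ih2 =>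
    have h0 : g.Produces (.nonterminal r.input :: s) (r.output ++ s) :=
      ⟨r, hr, .head s⟩
    refine h0.trans_derives ?_
    rw [List.map_append]
    exact (ih1.append_right s).trans (ih2.append_left _)

theorem mem_language_iff_yld (w : List T) : w ∈ g.language ↔ Yld g [.nonterminal g.initial] w :=
  ⟨fun h => Yld.of_derives h, fun h => h.derives⟩

/-- A factor `v` of `w` which is long but not too long and is the yield of a nonterminal. -/
def GoodFactor (N K : ℕ) (s : List (Symbol T g.NT)) (w : List T) : Prop :=
  ∃ (r : ContextFreeRule T g.NT) (u v z : List T), r ∈ g.rules ∧ w = u ++ v ++ z ∧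
    N < K * v.length ∧ v.length ≤ N ∧ Yld g [.nonterminal r.input] v ∧
    ∀ v', Yld g [.nonterminal r.input] v' → Yld g s (u ++ v' ++ z)

theorem good_or (N K : ℕ) (hK : ∀ r ∈ g.rules, r.output.length ≤ K) (hNK : K ≤ N) (hK0 : 0 < K)
    {s : List (Symbol T g.NT)} {w : List T} (h : Yld g s w) :
    GoodFactor N K s w ∨ K * w.length ≤ N * s.length := by
  induction h with
  | nil => right; simp
  | @term a s w _ ih =>
    rcases ih with ⟨r, u, v, z, hr, rfl, h1, h2, h3, h4⟩ | ih
    · left
      exact ⟨r, a :: u, v, z, hr, by simp, h1, h2, h3, fun v' hv' => by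
        have := Yld.term a (h4 v' hv')
        simpa using this⟩
    · right
      simp only [List.length_cons, Nat.mul_add]
      omega
  | @nont r s w1 w2 hr hy hs ih1 ih2 =>
    rcases ih1 with ⟨r', u, v, z, hr', rfl, h1, h2, h3, h4⟩ | ih1
    · left
      exact ⟨r', u, v, z ++ w2, hr', by simp, h1, h2, h3, fun v' hv' => by
        have := Yld.nont r hr (h4 v' hv') hs
        simpa using this⟩
    rcases ih2 with ⟨r', u, v, z, hr', rfl, h1, h2, h3, h4⟩ | ih2
    · left
      exact ⟨r', w1 ++ u, v, z, hr', by simp, h1, h2, h3, fun v' hv' => by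
        have := Yld.nont r hr hy (h4 v' hv')
        simpa using this⟩
    have hlen : w1.length ≤ N := by
      have h5 : K * w1.length ≤ N * K := ih1.trans (Nat.mul_le_mul_left N (hK r hr))
      rw [Nat.mul_comm N K] at h5
      exact Nat.le_of_mul_le_mul_left h5 hK0
    by_cases hbig : K * w1.length ≤ N
    · right
      simp only [List.length_append, List.length_cons, Nat.mul_add]
      omega
    · left
      refine ⟨r, [], w1, w2, hr, by simp, not_le.1 hbig, hlen, ?_, ?_⟩
      · have := Yld.nont r hr hy .nil
        rwa [List.append_nil] at this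
      · intro v' hv'
        have := hv'.append hs
        simpa using this

end CFG

theorem not_cf : ¬ (LI perms).IsContextFree := by
  classical
  rintro ⟨g, hg⟩
  -- a length bound for the rules
  obtain ⟨K, hK0, hK⟩ : ∃ K, 0 < K ∧ ∀ r ∈ g.rules, r.output.length ≤ K := by
    refine ⟨g.rules.sup (fun r => r.output.length) + 1, Nat.succ_pos _, fun r hr => ?_⟩
    exact (Finset.le_sup (f := fun r => r.output.length) hr).trans (Nat.le_succ _)
  -- a bound for the shortest yields
  have hD : ∃ D : ℕ, ∀ r ∈ g.rules, (∃ v, Yld g [.nonterminal r.input] v) →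
      ∃ v, Yld g [.nonterminal r.input] v ∧ v.length ≤ D := by
    let f : ContextFreeRule (Fin 3) g.NT → ℕ := fun r =>
      if h : ∃ v, Yld g [.nonterminal r.input] v then h.choose.length else 0
    refine ⟨g.rules.sup f, fun r hr hv => ⟨hv.choose, hv.choose_spec, ?_⟩⟩
    have h1 : f r = hv.choose.length := dif_pos hv
    rw [← h1]
    exact Finset.le_sup hr
  obtain ⟨D, hD⟩ := hD
  set N : ℕ := K * (2 * D + 1) with hN
  set w : List (Fin 3) := List.replicate N 0 ++ List.replicate N 1 ++ List.replicate N 2 with hw
  have hbal : Bal w := by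
    simp [Bal, hw, List.count_replicate]
  have hmem : w ∈ g.language := by
    rw [hg]; exact (mem_iff w).2 hbal
  have hy := (mem_language_iff_yld w).1 hmem
  have hNK : K ≤ N := by
    rw [hN]; exact Nat.le_mul_of_pos_right K (by omega)
  have hNpos : 0 < N := lt_of_lt_of_le hK0 hNK
  rcases good_or N K hK hNK hK0 hy with ⟨r, u, v, z, hr, hwv, h1, h2, h3, h4⟩ | h
  · obtain ⟨v0, hv0, hv0D⟩ := hD r hr ⟨v, h3⟩
    have hb1 : Bal (u ++ v ++ z) := by rw [← hwv]; exact hbal
    have hb0 : Bal (u ++ v0 ++ z) := by
      rw [← mem_iff, ← hg, mem_language_iff_yld]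
      exact h4 v0 hv0
    have hc : ∀ a, v0.count a ≤ D := fun a => (List.count_le_length).trans hv0D
    have hc0 := hc 0
    have hc1 := hc 1
    have hc2 := hc 2
    have hlen : 2 * D < v.length := by
      have : K * (2 * D + 1) < K * v.length := by rw [← hN]; exact h1
      have := Nat.lt_of_mul_lt_mul_left this
      omega
    have hsum : v.length = v.count 0 + v.count 1 + v.count 2 := by
      clear * -
      induction v with
      | nil => rfl
      | cons a v ih =>
        simp only [List.length_cons, List.count_cons, ih]
        fin_cases a <;> simp <;> omega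
    -- v misses letter 0 or letter 2
    have hmiss : v.count 0 = 0 ∨ v.count 2 = 0 := by
      by_contra hcon
      push Not at hcon
      have m0 : (0 : Fin 3) ∈ v := List.count_pos_iff.1 (Nat.pos_of_ne_zero hcon.1)
      have m2 : (2 : Fin 3) ∈ v := List.count_pos_iff.1 (Nat.pos_of_ne_zero hcon.2)
      obtain ⟨i, hi, hvi⟩ := List.mem_iff_getElem.1 m0
      obtain ⟨j, hj, hvj⟩ := List.mem_iff_getElem.1 m2
      have key : ∀ k (hk : k < v.length), w[u.length + k]? = some v[k] := by
        intro k hk
        rw [hwv, List.getElem?_append_left (by simp; omega), List.getElem?_append_right (by omega)]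
        simp [hk]
      have e0 := key i hi
      have e2 := key j hj
      rw [hvi] at e0
      rw [hvj] at e2
      have g0 : u.length + i < N := by
        by_contra hge
        rw [hw, List.append_assoc, List.getElem?_append_right (by simp; omega)] at e0
        have hmem0 := List.mem_of_getElem? e0
        simp at hmem0
      have g2 : ¬ u.length + j < 2 * N := by
        intro hlt
        rw [hw, List.getElem?_append_left (by simp; omega)] at e2
        have hmem2 := List.mem_of_getElem? e2
        simp at hmem2
      omega
    unfold Bal at hb0 hb1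
    simp only [List.count_append] at hb0 hb1
    rcases hmiss with h | h <;> omega
  · simp only [List.length_singleton, mul_one] at h
    have : w.length = 3 * N := by simp [hw]; omega
    rw [this] at h
    have : 3 * N ≤ K * (3 * N) := Nat.le_mul_of_pos_left _ hK0
    omega

/-- The stated equivalence fails: for the set `I` of the six permutations of `abc` the relation
is a well quasi-order on `L_I`, but `L_I` is not context-free. -/
theorem result : ∃ I : Finset (List (Fin 3)), (∀ w ∈ I, w ≠ []) ∧
    WqoOnLI I ∧ ¬ (LI I).IsContextFree := by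
  refine ⟨perms, ?_, wqo, not_cf⟩
  intro w hw h
  subst h
  have := count_perms hw 0
  simp at this

end Pool.Agent.Results.MP_709eaf_lc.NotIff
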